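import Mathlib
import Pool.Agent.H177R3.Big
import Pool.Agent.H96R3.BC.Asm

set_option autoImplicit false

namespace Pool.Agent.Results.MP_8e9775_nt.UnboundedPrimitive

open Pool.Agent.H177R3.Big

/-- There is a primitive element `F` of the Selberg class such that `S_F(x) / log log x` is unbounded;
in particular `S_F(x) - log log x` is unbounded. -/
theorem result : ∃ a : ℕ → ℂ, IsPrimitive a ∧
    (∀ K X₀ : ℝ, ∃ x : ℝ, X₀ ≤ x ∧ 3 ≤ x ∧ K * Real.log (Real.log x) < SF a x) ∧
    ¬ ∃ C : ℝ, ∀ x : ℝ, 3 ≤ x → |SF a x - Real.log (Real.log x)| ≤ C := by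
  obtain ⟨a, ha, h⟩ := final_big Pool.Agent.H96R3.BC.elt2
  refine ⟨a, ha, h, ?_⟩
  rintro ⟨C, hC⟩
  obtain ⟨x, -, hx, hlt⟩ := h (1 + |C| / Real.log (Real.log 3)) 3
  have h3 : 0 < Real.log (Real.log 3) := loglog_pos le_rfl
  have hmono : Real.log (Real.log 3) ≤ Real.log (Real.log x) := by
    have h1 : 0 < Real.log 3 := Real.log_pos (by norm_num)
    exact Real.log_le_log h1 (Real.log_le_log (by norm_num) hx)
  have h4 : |C| ≤ |C| / Real.log (Real.log 3) * Real.log (Real.log x) := by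
    rw [div_mul_eq_mul_div, le_div_iff₀ h3]
    exact mul_le_mul_of_nonneg_left hmono (abs_nonneg C)
  have h5 := (abs_le.1 (hC x hx)).2
  have h6 := le_abs_self C
  linarith

end Pool.Agent.Results.MP_8e9775_nt.UnboundedPrimitive
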